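import Pool.Agent.H21.BK.Count

/-!
# Upper bounds for the depth filtration in all depths

`ℚ⟨x₀, x₁⟩` is `A`, the double shuffle Lie algebra is `IsDM`, the Ihara bracket is `ihara` and
`s f h = f h + D_f h`.  From elements `σ a` (`a = 3, 5, 7, …`) of weight `a` and depth one of a
subspace of the double shuffle Lie algebra closed under the Ihara bracket, and arbitrary elements
`τ j` (`j = 0, 1, …`) whose words contain `x₁` for `j ≥ 1`, one forms all elements
`s_{σ a_1} ⋯ s_{σ a_n} (τ j)` of weight `a_1 + ⋯ + a_n + 2 j = k`.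
If all linear relations which hold for the coefficients of these elements hold for the values
`ζ u`, then the values of depth at most `r` span a space of dimension at most the number of pairs
`(w, j)` with `dep w + [j ≠ 0] ≤ r`; for `k ≤ 50` this is the number of Broadhurst and Kreimer.
-/

set_option autoImplicit false

namespace Pool.Agent.Results.MP_cbe134_nt.BoundAllDepths

open Pool.Agent.H777R4.DM Pool.Agent.H21.BK Finset

/-- the `ℚ`-span of the values of weight `k` and depth at most `r` -/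
def Fil {V : Type} [AddCommGroup V] [Module ℚ V] (W : Set (List (Fin 2))) (ζ : List (Fin 2) → V)
    (k r : ℕ) : Submodule ℚ V :=
  Submodule.span ℚ {y | ∃ u ∈ W, u.length = k ∧ u.count 1 ≤ r ∧ y = ζ u}

/-- The values `ζ u` satisfy every linear relation of weight `k` which holds for the coefficients of
all elements `s_{σ a_1} ⋯ s_{σ a_n} (τ j)` of weight `k`. -/
def Holds {V : Type} [AddCommGroup V] [Module ℚ V] (σ τ : ℕ → A) (W : Set (List (Fin 2)))
    (ζ : List (Fin 2) → V) (k : ℕ) : Prop :=
  ∀ c : List (Fin 2) →₀ ℚ, (∀ u ∈ c.support, u ∈ W ∧ u.length = k) →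
    (∀ (w : List ℕ) (j : ℕ), Ok w → w.sum + 2 * j = k →
      (c.sum fun u q => q * co (act σ w (τ j)) u) = 0) → (c.sum fun u q => q • ζ u) = 0

/-- **Upper bound for the depth filtration, in all weights and depths.** -/
theorem result {g : Submodule ℚ A} {σ : ℕ → A} (G : Gens g σ) {τ : ℕ → A}
    (hτ : ∀ j, 1 ≤ j → ∀ u, co (τ j) u ≠ 0 → 1 ≤ u.count 1) {V : Type} [AddCommGroup V]
    [Module ℚ V] (W : Set (List (Fin 2))) (ζ : List (Fin 2) → V) (k : ℕ) (h : Holds σ τ W ζ k)
    (r : ℕ) :
    (Idx k r).Finite ∧ Module.finrank ℚ (Fil W ζ k r) ≤ (Idx k r).ncard ∧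
    (k ≤ 50 → (Module.finrank ℚ (Fil W ζ k r) : ℤ) ≤ ∑ q ∈ range (r + 1), bk k q) := by
  have h1 : Module.finrank ℚ (Fil W ζ k r) ≤ (Idx k r).ncard := bound G τ hτ W ζ k h r
  refine ⟨idx_finite k r, h1, fun hk => ?_⟩
  rw [← ncard_eq hk r]
  exact_mod_cast h1

end Pool.Agent.Results.MP_cbe134_nt.BoundAllDepths
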